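import Pool.Agent.H86.FU.Kap

/-!
# Acyclic carriers on the Kuhn triangulation

`lo σ ≤ hi σ` are the corners of a box attached to every simplex, monotone in the simplex. There are
chain maps carried by the boxes, and two such chain maps are homotopic by a homotopy carried by the
boxes. Everything is stated for the dual operators on cochains.
-/

set_option autoImplicit false

namespace Pool.Agent.H86.FU

open Pool.Agent.H21.TU
open Pool.Agent.H47.ST (Co Simp sgn dd tr dX In)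

variable {ι F : Type*} [Fintype ι] [DecidableEq ι] [Field F]

open Classical in
theorem Car_dd_congr {u u' : Co ι F} {σ : Finset (ι → ℤ)}
    (h : ∀ v ∈ σ, u (σ.erase v) = u' (σ.erase v)) : dd u σ = dd u' σ := by
  rw [H47.ST.dd_apply, H47.ST.dd_apply]
  refine Finset.sum_congr rfl fun v hv => ?_
  have h1 := h v hv
  congr 1

theorem Car_dd_empty (u : Co ι F) : dd u ∅ = 0 := by
  rw [H47.ST.dd_apply, Finset.sum_empty]

theorem Car_dd_dd (u : Co ι F) {σ : Finset (ι → ℤ)} (h : Simp σ) : dd (dd u) σ = 0 := by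
  classical
  have h0 : ∀ (w : Co ι F) {τ : Finset (ι → ℤ)}, Simp τ → dX Set.univ w τ = dd w τ := by
    intro w τ hτ
    show (if In Set.univ τ then dd w τ else 0) = dd w τ
    rw [if_pos ⟨hτ, fun v _ => Set.mem_univ v⟩]
  have h1 := congrFun (H47.ST.dX_dX (F := F) (Set.univ : Set (ι → ℤ)) u) σ
  rw [h0 _ h] at h1
  rw [← Pi.zero_apply (M := fun _ : Finset (ι → ℤ) => F) σ, ← h1]
  exact Car_dd_congr fun v _ => (h0 u (h.mono (Finset.erase_subset v σ))).symm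

theorem Car_dd_tr {l : ι → ℤ} {u u' : Co ι F} {σ : Finset (ι → ℤ)} (hσ : Simp σ)
    (h : ∀ τ ⊆ σ, Simp τ → τ.card + 1 = σ.card → u (tr l τ) = u' τ) :
    dd u (tr l σ) = dd u' σ := by
  classical
  rw [H47.ST.dd_apply, H47.ST.dd_apply]
  conv_lhs => rw [tr]
  rw [Finset.sum_map]
  refine Finset.sum_congr rfl fun v hv => ?_
  change sgn F (tr l σ) (v + l) * u ((tr l σ).erase (v + l)) = sgn F σ v * u' (σ.erase v)
  rw [H47.ST.CellA_tr_sgn, H47.ST.CellA_tr_erase,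
    h _ (Finset.erase_subset v σ) (hσ.mono (Finset.erase_subset v σ))
      (by rw [Finset.card_erase_of_mem hv]; have := Finset.card_pos.2 ⟨v, hv⟩; omega)]

/-- boxes attached to the simplices -/
structure Bx (lo hi : Finset (ι → ℤ) → ι → ℤ) : Prop where
  mlo : ∀ σ τ : Finset (ι → ℤ), σ.Nonempty → σ ⊆ τ → lo τ ≤ lo σ
  mhi : ∀ σ τ : Finset (ι → ℤ), σ.Nonempty → σ ⊆ τ → hi σ ≤ hi τ
  le : ∀ σ : Finset (ι → ℤ), σ.Nonempty → lo σ ≤ hi σ

/-- all vertices in the box -/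
def Ib (a t : ι → ℤ) (τ : Finset (ι → ℤ)) : Prop := ∀ v ∈ τ, a ≤ v ∧ v ≤ t

/-- size of the box -/
def bn (lo hi : Finset (ι → ℤ) → ι → ℤ) (σ : Finset (ι → ℤ)) : ℕ :=
  ∑ x, (hi σ x - lo σ x).toNat

theorem bn_le (lo hi : Finset (ι → ℤ) → ι → ℤ) (σ : Finset (ι → ℤ)) (x : ι) :
    hi σ x ≤ lo σ x + bn lo hi σ := by
  have h1 : (hi σ x - lo σ x).toNat ≤ bn lo hi σ :=
    Finset.single_le_sum (f := fun x => (hi σ x - lo σ x).toNat) (fun _ _ => Nat.zero_le _)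
      (Finset.mem_univ x)
  omega

/-- the contraction of the box of `σ` -/
noncomputable def kb (lo hi : Finset (ι → ℤ) → ι → ℤ) (σ : Finset (ι → ℤ)) :
    Co ι F →ₗ[F] Co ι F := kap (bn lo hi σ) (lo σ)

theorem kb_id (lo hi : Finset (ι → ℤ) → ι → ℤ) (σ : Finset (ι → ℤ)) (u : Co ι F)
    {τ : Finset (ι → ℤ)} (hτ : Simp τ) (h : Ib (lo σ) (hi σ) τ) :
    dd (kb lo hi σ u) τ + kb lo hi σ (dd u) τ = u τ :=
  kap_id u hτ (fun v hv => (h v hv).1) fun v hv x => by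
    have h1 : v x ≤ hi σ x := (h v hv).2 x
    have h2 := bn_le lo hi σ x
    omega

theorem kb_supp {lo hi : Finset (ι → ℤ) → ι → ℤ} (hB : Bx lo hi) {σ : Finset (ι → ℤ)}
    (hne : σ.Nonempty) {u : Co ι F} {τ : Finset (ι → ℤ)} (hτ : Simp τ) (h : Ib (lo σ) (hi σ) τ)
    (hu : ∀ ρ : Finset (ι → ℤ), Simp ρ → ρ.card = τ.card + 1 → Ib (lo σ) (hi σ) ρ → u ρ = 0) :
    kb lo hi σ u τ = 0 := kap_supp hτ (hB.le σ hne) h hu

theorem Ib_mono {lo hi : Finset (ι → ℤ) → ι → ℤ} (hB : Bx lo hi) {σ τ ρ : Finset (ι → ℤ)}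
    (hne : τ.Nonempty) (hs : τ ⊆ σ) (h : Ib (lo τ) (hi τ) ρ) : Ib (lo σ) (hi σ) ρ :=
  fun v hv => ⟨(hB.mlo τ σ hne hs).trans (h v hv).1, (h v hv).2.trans (hB.mhi τ σ hne hs)⟩

theorem Ib_mono' {lo hi : Finset (ι → ℤ) → ι → ℤ} (hB : Bx lo hi) {σ τ ρ : Finset (ι → ℤ)}
    (hc : ρ.card = τ.card) (hs : τ ⊆ σ) (h : Ib (lo τ) (hi τ) ρ) : Ib (lo σ) (hi σ) ρ := by
  rcases τ.eq_empty_or_nonempty with h1 | h1
  · rw [h1, Finset.card_empty, Finset.card_eq_zero] at hc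
    rw [hc]
    intro v hv
    exact absurd hv (Finset.notMem_empty v)
  · exact Ib_mono hB h1 hs h

/-- an operator which sees only the box of `σ` -/
theorem kb_op (lo hi : Finset (ι → ℤ) → ι → ℤ) (σ : Finset (ι → ℤ))
    (Θ : Co ι F →ₗ[F] Co ι F) {τ : Finset (ι → ℤ)}
    (hΘ : ∀ u : Co ι F, (∀ ρ, Simp ρ → Ib (lo σ) (hi σ) ρ → u ρ = 0) → Θ u τ = 0)
    (u : Co ι F) : Θ (kb lo hi σ (dd u)) τ = Θ u τ - Θ (dd (kb lo hi σ u)) τ := by
  have h := hΘ (u - dd (kb lo hi σ u) - kb lo hi σ (dd u)) fun ρ h1 h2 => by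
    have h3 := kb_id lo hi σ u h1 h2
    rw [Pi.sub_apply, Pi.sub_apply, ← h3]
    ring
  rw [map_sub, map_sub, Pi.sub_apply, Pi.sub_apply] at h
  exact (sub_eq_zero.1 h).symm

/-- chain maps carried by the boxes -/
structure Car (lo hi : Finset (ι → ℤ) → ι → ℤ) (Φ : Co ι F →ₗ[F] Co ι F) : Prop where
  emp : ∀ u : Co ι F, Φ u ∅ = u ∅
  supp : ∀ (u : Co ι F) (σ : Finset (ι → ℤ)), Simp σ →
    (∀ τ, Simp τ → τ.card = σ.card → Ib (lo σ) (hi σ) τ → u τ = 0) → Φ u σ = 0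
  chain : ∀ (u : Co ι F) (σ : Finset (ι → ℤ)), Simp σ → Φ (dd u) σ = dd (Φ u) σ

/-- equivariance under the translation by `l` -/
def Eqv (l : ι → ℤ) (Φ : Co ι F →ₗ[F] Co ι F) : Prop :=
  ∀ u u' : Co ι F, (∀ σ, Simp σ → u (tr l σ) = u' σ) → ∀ σ, Simp σ → Φ u (tr l σ) = Φ u' σ

/-- equivariance of the boxes -/
def Bv (l : ι → ℤ) (lo : Finset (ι → ℤ) → ι → ℤ) : Prop :=
  ∀ σ : Finset (ι → ℤ), σ.Nonempty → lo (tr l σ) = lo σ + l

theorem kb_tr {lo hi : Finset (ι → ℤ) → ι → ℤ} {l : ι → ℤ} (h1 : Bv l lo) (h2 : Bv l hi)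
    {σ : Finset (ι → ℤ)} (hne : σ.Nonempty) {u u' : Co ι F}
    (hu : ∀ τ, Simp τ → u (tr l τ) = u' τ) {τ : Finset (ι → ℤ)} (hτ : Simp τ) :
    kb lo hi (tr l σ) u (tr l τ) = kb lo hi σ u' τ := by
  unfold kb
  have h3 : bn lo hi (tr l σ) = bn lo hi σ := by
    unfold bn
    rw [h1 σ hne, h2 σ hne]
    refine Finset.sum_congr rfl fun x _ => ?_
    rw [Pi.add_apply, Pi.add_apply, add_sub_add_right_eq_sub]
  rw [h3, h1 σ hne]
  exact kap_tr hu hτ

/-- the recursive construction -/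
noncomputable def PsiN (lo hi : Finset (ι → ℤ) → ι → ℤ) : ℕ → (Co ι F →ₗ[F] Co ι F)
  | 0 => LinearMap.id
  | n + 1 => LinearMap.pi fun σ =>
      (LinearMap.proj σ).comp (dd.comp ((PsiN lo hi n).comp (kb lo hi σ)))

/-- the chain map of the boxes -/
noncomputable def Psi (lo hi : Finset (ι → ℤ) → ι → ℤ) : Co ι F →ₗ[F] Co ι F :=
  LinearMap.pi fun σ => (LinearMap.proj σ).comp (PsiN lo hi σ.card)

theorem Psi_empty (lo hi : Finset (ι → ℤ) → ι → ℤ) (u : Co ι F) : Psi lo hi u ∅ = u ∅ := rfl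

theorem Psi_ne (lo hi : Finset (ι → ℤ) → ι → ℤ) (u : Co ι F) {σ : Finset (ι → ℤ)}
    (hne : σ.Nonempty) : Psi lo hi u σ = dd (Psi lo hi (kb lo hi σ u)) σ := by
  classical
  obtain ⟨n, hn⟩ : ∃ n, σ.card = n + 1 := ⟨σ.card - 1, by have := hne.card_pos; omega⟩
  have h1 : Psi lo hi u σ = dd (PsiN lo hi n (kb lo hi σ u)) σ := by
    show PsiN lo hi σ.card u σ = _
    rw [hn]
    rfl
  rw [h1]
  refine Car_dd_congr fun v hv => ?_
  show _ = PsiN lo hi (σ.erase v).card (kb lo hi σ u) (σ.erase v)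
  rw [Finset.card_erase_of_mem hv, hn, Nat.add_sub_cancel]

theorem Psi_supp {lo hi : Finset (ι → ℤ) → ι → ℤ} (hB : Bx lo hi) (σ : Finset (ι → ℤ)) :
    ∀ u : Co ι F, Simp σ → (∀ τ, Simp τ → τ.card = σ.card → Ib (lo σ) (hi σ) τ → u τ = 0) →
      Psi lo hi u σ = 0 := by
  classical
  induction σ using Finset.strongInduction with
  | H σ ih =>
    intro u hσ hu
    rcases σ.eq_empty_or_nonempty with h1 | h1
    · subst h1
      rw [Psi_empty]
      exact hu ∅ hσ rfl fun v hv => absurd hv (Finset.notMem_empty v)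
    · rw [Psi_ne lo hi u h1, H47.ST.dd_apply]
      refine Finset.sum_eq_zero fun v hv => ?_
      rw [ih _ (Finset.erase_ssubset hv) _ (hσ.mono (Finset.erase_subset v σ)), mul_zero]
      intro τ hτ hc hI
      refine kb_supp hB h1 hτ (Ib_mono' hB hc (Finset.erase_subset v σ) hI) fun ρ h2 h3 h4 =>
        hu ρ h2 ?_ h4
      rw [h3, hc, Finset.card_erase_of_mem hv]
      have := h1.card_pos
      omega

theorem Psi_chain {lo hi : Finset (ι → ℤ) → ι → ℤ} (hB : Bx lo hi) (σ : Finset (ι → ℤ)) :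
    ∀ u : Co ι F, Simp σ → Psi lo hi (dd u) σ = dd (Psi lo hi u) σ := by
  classical
  induction σ using Finset.strongInduction with
  | H σ ih =>
    intro u hσ
    rcases σ.eq_empty_or_nonempty with h1 | h1
    · subst h1
      rw [Psi_empty, Car_dd_empty, Car_dd_empty]
    · have h2 : dd (Psi lo hi (kb lo hi σ (dd u))) σ =
          dd (Psi lo hi u - dd (Psi lo hi (kb lo hi σ u))) σ := by
        refine Car_dd_congr fun v hv => ?_
        have h3 := kb_op lo hi σ (Psi lo hi) (τ := σ.erase v) (fun w hw =>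
          Psi_supp hB _ w (hσ.mono (Finset.erase_subset v σ)) fun τ hτ hc hI =>
            hw τ hτ (Ib_mono' hB hc (Finset.erase_subset v σ) hI)) u
        rw [h3, Pi.sub_apply, ih _ (Finset.erase_ssubset hv) _
          (hσ.mono (Finset.erase_subset v σ))]
      rw [Psi_ne lo hi _ h1, h2, map_sub, Pi.sub_apply, Car_dd_dd _ hσ, sub_zero]

theorem Psi_Car {lo hi : Finset (ι → ℤ) → ι → ℤ} (hB : Bx lo hi) :
    Car (F := F) lo hi (Psi lo hi) :=
  ⟨Psi_empty lo hi, fun u σ h1 h2 => Psi_supp hB σ u h1 h2, fun u σ h => Psi_chain hB σ u h⟩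

omit [Fintype ι] [DecidableEq ι] in
theorem Car_tr_empty (l : ι → ℤ) : tr l (∅ : Finset (ι → ℤ)) = ∅ := Finset.map_empty _

omit [Fintype ι] [DecidableEq ι] in
theorem Car_tr_card (l : ι → ℤ) (σ : Finset (ι → ℤ)) : (tr l σ).card = σ.card :=
  Finset.card_map _

omit [Fintype ι] [DecidableEq ι] in
theorem Car_tr_ne {l : ι → ℤ} {σ : Finset (ι → ℤ)} (h : σ.Nonempty) : (tr l σ).Nonempty :=
  h.map

theorem Psi_eqv {lo hi : Finset (ι → ℤ) → ι → ℤ} {l : ι → ℤ} (h1 : Bv l lo) (h2 : Bv l hi) :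
    Eqv (F := F) l (Psi lo hi) := by
  classical
  intro u u' hu σ
  induction σ using Finset.strongInduction generalizing u u' with
  | H σ ih =>
    intro hσ
    rcases σ.eq_empty_or_nonempty with h3 | h3
    · subst h3
      have h4 := hu ∅ hσ
      rw [Car_tr_empty] at h4 ⊢
      rw [Psi_empty, Psi_empty, h4]
    · rw [Psi_ne lo hi u (Car_tr_ne h3), Psi_ne lo hi u' h3]
      refine Car_dd_tr hσ fun τ hs hτ hc => ?_
      refine ih τ ⟨hs, fun h => ?_⟩ _ _ (fun ρ hρ => kb_tr h1 h2 h3 hu hρ) hτ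
      have := Finset.card_le_card h
      omega

/-- the recursive construction of the homotopy -/
noncomputable def HN (lo hi : Finset (ι → ℤ) → ι → ℤ) (Φ Φ' : Co ι F →ₗ[F] Co ι F) :
    ℕ → (Co ι F →ₗ[F] Co ι F)
  | 0 => 0
  | n + 1 => LinearMap.pi fun σ =>
      (LinearMap.proj σ).comp ((Φ' - Φ - dd.comp (HN lo hi Φ Φ' n)).comp (kb lo hi σ))

/-- the homotopy -/
noncomputable def Ho (lo hi : Finset (ι → ℤ) → ι → ℤ) (Φ Φ' : Co ι F →ₗ[F] Co ι F) :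
    Co ι F →ₗ[F] Co ι F :=
  LinearMap.pi fun σ => (LinearMap.proj σ).comp (HN lo hi Φ Φ' σ.card)

theorem Ho_empty (lo hi : Finset (ι → ℤ) → ι → ℤ) (Φ Φ' : Co ι F →ₗ[F] Co ι F) (u : Co ι F) :
    Ho lo hi Φ Φ' u ∅ = 0 := rfl

theorem Ho_ne (lo hi : Finset (ι → ℤ) → ι → ℤ) (Φ Φ' : Co ι F →ₗ[F] Co ι F) (u : Co ι F)
    {σ : Finset (ι → ℤ)} (hne : σ.Nonempty) : Ho lo hi Φ Φ' u σ =
      Φ' (kb lo hi σ u) σ - Φ (kb lo hi σ u) σ - dd (Ho lo hi Φ Φ' (kb lo hi σ u)) σ := by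
  classical
  obtain ⟨n, hn⟩ : ∃ n, σ.card = n + 1 := ⟨σ.card - 1, by have := hne.card_pos; omega⟩
  have h1 : Ho lo hi Φ Φ' u σ = Φ' (kb lo hi σ u) σ - Φ (kb lo hi σ u) σ -
      dd (HN lo hi Φ Φ' n (kb lo hi σ u)) σ := by
    show HN lo hi Φ Φ' σ.card u σ = _
    rw [hn]
    rfl
  rw [h1]
  congr 1
  refine Car_dd_congr fun v hv => ?_
  show _ = HN lo hi Φ Φ' (σ.erase v).card (kb lo hi σ u) (σ.erase v)
  rw [Finset.card_erase_of_mem hv, hn, Nat.add_sub_cancel]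

theorem Ho_supp {lo hi : Finset (ι → ℤ) → ι → ℤ} (hB : Bx lo hi) {Φ Φ' : Co ι F →ₗ[F] Co ι F}
    (hΦ : Car lo hi Φ) (hΦ' : Car lo hi Φ') (σ : Finset (ι → ℤ)) :
    ∀ u : Co ι F, Simp σ →
      (∀ τ, Simp τ → τ.card = σ.card + 1 → Ib (lo σ) (hi σ) τ → u τ = 0) →
      Ho lo hi Φ Φ' u σ = 0 := by
  classical
  induction σ using Finset.strongInduction with
  | H σ ih =>
    intro u hσ hu
    rcases σ.eq_empty_or_nonempty with h1 | h1
    · subst h1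
      exact Ho_empty lo hi Φ Φ' u
    · have h5 : ∀ τ, Simp τ → τ.card = σ.card → Ib (lo σ) (hi σ) τ →
          kb lo hi σ u τ = 0 := fun τ hτ hc hI =>
        kb_supp hB h1 hτ hI fun ρ h2 h3 h4 => hu ρ h2 (by rw [h3, hc]) h4
      rw [Ho_ne lo hi Φ Φ' u h1, hΦ'.supp _ σ hσ h5, hΦ.supp _ σ hσ h5, sub_zero, zero_sub,
        neg_eq_zero, H47.ST.dd_apply]
      refine Finset.sum_eq_zero fun v hv => ?_
      rcases (σ.erase v).eq_empty_or_nonempty with h6 | h6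
      · rw [h6, Ho_empty, mul_zero]
      · rw [ih _ (Finset.erase_ssubset hv) _ (hσ.mono (Finset.erase_subset v σ)), mul_zero]
        intro τ hτ hc hI
        refine h5 τ hτ ?_ (Ib_mono hB h6 (Finset.erase_subset v σ) hI)
        rw [hc, Finset.card_erase_of_mem hv]
        have := h1.card_pos
        omega

theorem Ho_hom {lo hi : Finset (ι → ℤ) → ι → ℤ} (hB : Bx lo hi) {Φ Φ' : Co ι F →ₗ[F] Co ι F}
    (hΦ : Car lo hi Φ) (hΦ' : Car lo hi Φ') (σ : Finset (ι → ℤ)) :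
    ∀ u : Co ι F, Simp σ →
      dd (Ho lo hi Φ Φ' u) σ + Ho lo hi Φ Φ' (dd u) σ = Φ' u σ - Φ u σ := by
  classical
  induction σ using Finset.strongInduction with
  | H σ ih =>
    intro u hσ
    rcases σ.eq_empty_or_nonempty with h1 | h1
    · subst h1
      rw [Ho_empty, Car_dd_empty, hΦ.emp, hΦ'.emp, sub_self, add_zero]
    · have hop : ∀ Θ : Co ι F →ₗ[F] Co ι F, Car lo hi Θ →
          Θ (kb lo hi σ (dd u)) σ = Θ u σ - dd (Θ (kb lo hi σ u)) σ := by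
        intro Θ hΘ
        rw [kb_op lo hi σ Θ (τ := σ) (fun w hw => hΘ.supp w σ hσ fun τ hτ _ hI => hw τ hτ hI) u,
          hΘ.chain _ σ hσ]
      have h2 : dd (Ho lo hi Φ Φ' (kb lo hi σ (dd u))) σ =
          dd (Ho lo hi Φ Φ' u - (Φ' (kb lo hi σ u) - Φ (kb lo hi σ u) -
            dd (Ho lo hi Φ Φ' (kb lo hi σ u)))) σ := by
        refine Car_dd_congr fun v hv => ?_
        have hτ := hσ.mono (Finset.erase_subset v σ)
        have h3 := kb_op lo hi σ (Ho lo hi Φ Φ') (τ := σ.erase v) (fun w hw => by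
          rcases (σ.erase v).eq_empty_or_nonempty with h6 | h6
          · rw [h6, Ho_empty]
          · exact Ho_supp hB hΦ hΦ' _ w hτ fun τ hτ hc hI =>
              hw τ hτ (Ib_mono hB h6 (Finset.erase_subset v σ) hI)) u
        have h4 := ih _ (Finset.erase_ssubset hv) (kb lo hi σ u) hτ
        rw [h3, Pi.sub_apply, Pi.sub_apply, Pi.sub_apply, ← h4]
        ring
      rw [Ho_ne lo hi Φ Φ' _ h1, hop Φ' hΦ', hop Φ hΦ, h2, map_sub, map_sub, map_sub,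
        Pi.sub_apply, Pi.sub_apply, Pi.sub_apply, Car_dd_dd _ hσ]
      ring

theorem Ho_eqv {lo hi : Finset (ι → ℤ) → ι → ℤ} {l : ι → ℤ} (h1 : Bv l lo) (h2 : Bv l hi)
    {Φ Φ' : Co ι F →ₗ[F] Co ι F} (hΦ : Eqv l Φ) (hΦ' : Eqv l Φ') :
    Eqv l (Ho lo hi Φ Φ') := by
  classical
  intro u u' hu σ
  induction σ using Finset.strongInduction generalizing u u' with
  | H σ ih =>
    intro hσ
    rcases σ.eq_empty_or_nonempty with h3 | h3
    · subst h3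
      rw [Car_tr_empty, Ho_empty, Ho_empty]
    · have h4 : ∀ ρ, Simp ρ → kb lo hi (tr l σ) u (tr l ρ) = kb lo hi σ u' ρ :=
        fun ρ hρ => kb_tr h1 h2 h3 hu hρ
      rw [Ho_ne lo hi Φ Φ' u (Car_tr_ne h3), Ho_ne lo hi Φ Φ' u' h3, hΦ _ _ h4 σ hσ,
        hΦ' _ _ h4 σ hσ]
      congr 1
      refine Car_dd_tr hσ fun τ hs hτ hc => ?_
      refine ih τ ⟨hs, fun h => ?_⟩ _ _ h4 hτ
      have := Finset.card_le_card h
      omega

end Pool.Agent.H86.FU
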