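import Pool.Agent.H86.FU.Car
import Pool.Agent.H47.ST.Free

/-!
# Homotopy along a chain of vertex maps, carried by boxes

`lo j v ≤ hi j v`, `lo 0 v = hi 0 v = v`, `lo J v = hi J v = v ∘ e`: the operator `Tp e` of the
permutation `e` is homotopic to the identity, and the homotopy at a simplex `σ` sees only the
simplices in the hulls of `lo j v, lo (j + 1) v, hi j v, hi (j + 1) v`, `v ∈ σ`, for one `j < J`.
-/

set_option autoImplicit false

namespace Pool.Agent.H86.FU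

open Pool.Agent.H21.TU
open Pool.Agent.H47.ST (Co Simp sgn dd tr dX In Inv co Tp ta pe cut PInv)

variable {ι F : Type*} [Fintype ι] [DecidableEq ι] [Field F]

/-- lower corner of the hull of `f v`, `v ∈ σ` -/
noncomputable def lw (f : (ι → ℤ) → ι → ℤ) (σ : Finset (ι → ℤ)) : ι → ℤ := fun x =>
  if h : σ.Nonempty then σ.inf' h (fun v => f v x) else 0

/-- upper corner of the hull of `f v`, `v ∈ σ` -/
noncomputable def up (f : (ι → ℤ) → ι → ℤ) (σ : Finset (ι → ℤ)) : ι → ℤ := fun x =>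
  if h : σ.Nonempty then σ.sup' h (fun v => f v x) else 0

omit [Fintype ι] [DecidableEq ι] in
theorem lw_le (f : (ι → ℤ) → ι → ℤ) {σ : Finset (ι → ℤ)} {v : ι → ℤ} (hv : v ∈ σ) (x : ι) :
    lw f σ x ≤ f v x := by
  unfold lw
  rw [dif_pos ⟨v, hv⟩]
  exact Finset.inf'_le (fun v => f v x) hv

omit [Fintype ι] [DecidableEq ι] in
theorem le_up (f : (ι → ℤ) → ι → ℤ) {σ : Finset (ι → ℤ)} {v : ι → ℤ} (hv : v ∈ σ) (x : ι) :
    f v x ≤ up f σ x := by
  unfold up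
  rw [dif_pos ⟨v, hv⟩]
  exact Finset.le_sup' (fun v => f v x) hv

omit [Fintype ι] [DecidableEq ι] in
theorem lw_ex (f : (ι → ℤ) → ι → ℤ) {σ : Finset (ι → ℤ)} (h : σ.Nonempty) (x : ι) :
    ∃ v ∈ σ, lw f σ x = f v x := by
  obtain ⟨v, hv, h1⟩ := Finset.exists_mem_eq_inf' h (fun v => f v x)
  refine ⟨v, hv, ?_⟩
  unfold lw
  rw [dif_pos h, h1]

omit [Fintype ι] [DecidableEq ι] in
theorem up_ex (f : (ι → ℤ) → ι → ℤ) {σ : Finset (ι → ℤ)} (h : σ.Nonempty) (x : ι) :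
    ∃ v ∈ σ, up f σ x = f v x := by
  obtain ⟨v, hv, h1⟩ := Finset.exists_mem_eq_sup' h (fun v => f v x)
  refine ⟨v, hv, ?_⟩
  unfold up
  rw [dif_pos h, h1]

omit [Fintype ι] [DecidableEq ι] in
theorem lw_mono {f f' : (ι → ℤ) → ι → ℤ} (hf : ∀ v x, f' v x ≤ f v x) {σ τ : Finset (ι → ℤ)}
    (h : σ.Nonempty) (hs : σ ⊆ τ) : lw f' τ ≤ lw f σ := by
  intro x
  obtain ⟨v, hv, h1⟩ := lw_ex f h x
  rw [h1]
  exact (lw_le f' (hs hv) x).trans (hf v x)

omit [Fintype ι] [DecidableEq ι] in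
theorem up_mono {f f' : (ι → ℤ) → ι → ℤ} (hf : ∀ v x, f v x ≤ f' v x) {σ τ : Finset (ι → ℤ)}
    (h : σ.Nonempty) (hs : σ ⊆ τ) : up f σ ≤ up f' τ := by
  intro x
  obtain ⟨v, hv, h1⟩ := up_ex f h x
  rw [h1]
  exact (hf v x).trans (le_up f' (hs hv) x)

theorem Bx_hull {f g : (ι → ℤ) → ι → ℤ} (hfg : ∀ v x, f v x ≤ g v x) :
    Bx (lw f) (up g) where
  mlo _ _ h hs := lw_mono (fun _ _ => le_rfl) h hs
  mhi _ _ h hs := up_mono (fun _ _ => le_rfl) h hs
  le σ h := by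
    obtain ⟨v, hv⟩ := h
    exact fun x => (lw_le f hv x).trans ((hfg v x).trans (le_up g hv x))

theorem Bv_lw {f : (ι → ℤ) → ι → ℤ} {l : ι → ℤ} (hf : ∀ v, f (v + l) = f v + l) :
    Bv l (lw f) := by
  intro σ h
  funext x
  rw [Pi.add_apply]
  refine le_antisymm ?_ ?_
  · obtain ⟨v, hv, h1⟩ := lw_ex f h x
    have h2 := lw_le f (H47.ST.CellA_tr_mem.2 ⟨v, hv, rfl⟩ : v + l ∈ tr l σ) x
    rwa [hf, Pi.add_apply, ← h1] at h2
  · obtain ⟨w, hw, h1⟩ := lw_ex f (Car_tr_ne (l := l) h) x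
    obtain ⟨v, hv, rfl⟩ := H47.ST.CellA_tr_mem.1 hw
    rw [h1, hf, Pi.add_apply]
    exact (add_le_add_iff_right _).2 (lw_le f hv x)

theorem Bv_up {f : (ι → ℤ) → ι → ℤ} {l : ι → ℤ} (hf : ∀ v, f (v + l) = f v + l) :
    Bv l (up f) := by
  intro σ h
  funext x
  rw [Pi.add_apply]
  refine le_antisymm ?_ ?_
  · obtain ⟨w, hw, h1⟩ := up_ex f (Car_tr_ne (l := l) h) x
    obtain ⟨v, hv, rfl⟩ := H47.ST.CellA_tr_mem.1 hw
    rw [h1, hf, Pi.add_apply]
    exact (add_le_add_iff_right _).2 (le_up f hv x)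
  · obtain ⟨v, hv, h1⟩ := up_ex f h x
    have h2 := le_up f (H47.ST.CellA_tr_mem.2 ⟨v, hv, rfl⟩ : v + l ∈ tr l σ) x
    rwa [hf, Pi.add_apply, ← h1] at h2

/-- larger boxes -/
theorem Car.mono {lo hi lo' hi' : Finset (ι → ℤ) → ι → ℤ} {Φ : Co ι F →ₗ[F] Co ι F}
    (hΦ : Car lo hi Φ) (h1 : ∀ σ : Finset (ι → ℤ), σ.Nonempty → lo' σ ≤ lo σ)
    (h2 : ∀ σ : Finset (ι → ℤ), σ.Nonempty → hi σ ≤ hi' σ) : Car lo' hi' Φ where
  emp := hΦ.emp
  chain := hΦ.chain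
  supp u σ hσ hu := by
    refine hΦ.supp u σ hσ fun τ hτ hc hI => hu τ hτ hc fun v hv => ?_
    have hne : σ.Nonempty := by
      rw [← Finset.card_pos, ← hc, Finset.card_pos]
      exact ⟨v, hv⟩
    exact ⟨(h1 σ hne).trans (hI v hv).1, (hI v hv).2.trans (h2 σ hne)⟩

theorem Car_id {lo hi : Finset (ι → ℤ) → ι → ℤ} (h : ∀ σ : Finset (ι → ℤ), Ib (lo σ) (hi σ) σ) :
    Car (F := F) lo hi LinearMap.id where
  emp _ := rfl
  supp _ σ hσ hu := hu σ hσ rfl (h σ)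
  chain _ _ _ := rfl

omit [Fintype ι] [DecidableEq ι] in
theorem Cfin_Simp_map (e : Equiv.Perm ι) {σ : Finset (ι → ℤ)} (h : Simp σ) :
    Simp (σ.map (pe e).toEmbedding) := by
  intro v hv w hw
  obtain ⟨v', hv', rfl⟩ := Finset.mem_map.1 hv
  obtain ⟨w', hw', rfl⟩ := Finset.mem_map.1 hw
  rcases h v' hv' w' hw' with h1 | h1
  · exact Or.inl ⟨fun x => h1.1 (e x), fun x => h1.2 (e x)⟩
  · exact Or.inr ⟨fun x => h1.1 (e x), fun x => h1.2 (e x)⟩

theorem Cfin_dX {u : Co ι F} {σ : Finset (ι → ℤ)} (h : Simp σ) : dX Set.univ u σ = dd u σ := by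
  classical
  show (if In Set.univ σ then dd u σ else 0) = dd u σ
  rw [if_pos ⟨h, fun v _ => Set.mem_univ v⟩]

theorem Car_Tp {lo hi : Finset (ι → ℤ) → ι → ℤ} (e : Equiv.Perm ι)
    (h : ∀ σ : Finset (ι → ℤ), Ib (lo σ) (hi σ) (σ.map (pe e).toEmbedding)) :
    Car (F := F) lo hi (Tp e) where
  emp u := by
    show u ((∅ : Finset (ι → ℤ)).map _) = u ∅
    rw [Finset.map_empty]
  supp u σ hσ hu := hu _ (Cfin_Simp_map e hσ) (Finset.card_map _) (h σ)
  chain u σ hσ := by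
    have h1 := congrFun (H47.ST.Free_dT (F := F) (π := e) (X := (Set.univ : Set (ι → ℤ)))
      (fun v => Iff.rfl) u) σ
    rw [Cfin_dX hσ] at h1
    rw [h1]
    show dd u (σ.map _) = dX Set.univ u (σ.map _)
    rw [Cfin_dX (Cfin_Simp_map e hσ)]

theorem Eqv_Tp {e : Equiv.Perm ι} {l : ι → ℤ} (hl : l ∘ e = l) : Eqv (F := F) l (Tp e) := by
  intro u u' hu σ hσ
  show u ((tr l σ).map _) = u' (σ.map _)
  rw [← hu _ (Cfin_Simp_map e hσ)]
  congr 1
  ext w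
  simp only [tr, Finset.mem_map, Equiv.coe_toEmbedding, Equiv.coe_addRight]
  constructor
  · rintro ⟨_, ⟨v, hv, rfl⟩, rfl⟩
    refine ⟨_, ⟨v, hv, rfl⟩, ?_⟩
    show v ∘ e + l = (v + l) ∘ e
    rw [Pi.add_comp, hl]
  · rintro ⟨_, ⟨v, hv, rfl⟩, rfl⟩
    refine ⟨_, ⟨v, hv, rfl⟩, ?_⟩
    show (v + l) ∘ e = v ∘ e + l
    rw [Pi.add_comp, hl]

/-- homotopy `H` from `Φ` to `Φ'` carried by the relation `B` -/
structure Hm (L : AddSubgroup (ι → ℤ)) (B : Finset (ι → ℤ) → Finset (ι → ℤ) → Prop)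
    (Φ Φ' H : Co ι F →ₗ[F] Co ι F) : Prop where
  emp : ∀ u : Co ι F, H u ∅ = 0
  hom : ∀ (u : Co ι F) (σ : Finset (ι → ℤ)), Simp σ → dd (H u) σ + H (dd u) σ = Φ' u σ - Φ u σ
  supp : ∀ (u : Co ι F) (σ : Finset (ι → ℤ)), Simp σ → σ.Nonempty →
    (∀ τ, Simp τ → τ.card = σ.card + 1 → B σ τ → u τ = 0) → H u σ = 0
  eqv : ∀ l ∈ L, Eqv l H

theorem Hm.add {L : AddSubgroup (ι → ℤ)} {B : Finset (ι → ℤ) → Finset (ι → ℤ) → Prop}
    {Φ Φ' Φ'' H H' : Co ι F →ₗ[F] Co ι F} (h : Hm L B Φ Φ' H) (h' : Hm L B Φ' Φ'' H') :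
    Hm L B Φ Φ'' (H + H') where
  emp u := by rw [LinearMap.add_apply, Pi.add_apply, h.emp, h'.emp, add_zero]
  hom u σ hσ := by
    have h1 := h.hom u σ hσ
    have h2 := h'.hom u σ hσ
    rw [LinearMap.add_apply, LinearMap.add_apply, map_add, Pi.add_apply, Pi.add_apply]
    linear_combination h1 + h2
  supp u σ hσ hne hu := by
    rw [LinearMap.add_apply, Pi.add_apply, h.supp u σ hσ hne hu, h'.supp u σ hσ hne hu, add_zero]
  eqv l hl u u' hu σ hσ := by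
    rw [LinearMap.add_apply, LinearMap.add_apply, Pi.add_apply, Pi.add_apply,
      h.eqv l hl u u' hu σ hσ, h'.eqv l hl u u' hu σ hσ]

/-- `w` is in the hull of the images of `σ` under the maps number `j` and `j + 1` -/
def Cr (lo hi : ℕ → (ι → ℤ) → ι → ℤ) (j : ℕ) (σ : Finset (ι → ℤ)) (w : ι → ℤ) : Prop :=
  ∀ i, (∃ v ∈ σ, lo j v i ≤ w i ∨ lo (j + 1) v i ≤ w i) ∧
    ∃ v ∈ σ, w i ≤ hi j v i ∨ w i ≤ hi (j + 1) v i

/-- **Carrier theorem.** -/
theorem carrier_T (L : AddSubgroup (ι → ℤ)) (J : ℕ) (lo hi : ℕ → (ι → ℤ) → ι → ℤ)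
    (e : Equiv.Perm ι) (hle : ∀ j v i, lo j v i ≤ hi j v i) (h0 : ∀ v, lo 0 v = v)
    (h0' : ∀ v, hi 0 v = v) (hJ : ∀ v, lo J v = v ∘ e) (hJ' : ∀ v, hi J v = v ∘ e)
    (hl : ∀ j, ∀ l ∈ L, ∀ v, lo j (v + l) = lo j v + l)
    (hl' : ∀ j, ∀ l ∈ L, ∀ v, hi j (v + l) = hi j v + l) :
    ∃ H : Co ι F →ₗ[F] Co ι F,
      Hm L (fun σ τ => ∃ j < J, ∀ w ∈ τ, Cr lo hi j σ w) LinearMap.id (Tp e) H := by
  classical
  rcases Nat.eq_zero_or_pos J with hJ0 | hJ0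
  · subst hJ0
    refine ⟨0, fun _ => rfl, fun u σ hσ => ?_, fun _ _ _ _ _ => rfl, fun l hl u u' hu σ hσ => rfl⟩
    have h1 : Tp e u σ = u σ := by
      show u (σ.map _) = u σ
      congr 1
      ext w
      rw [Finset.mem_map]
      constructor
      · rintro ⟨v, hv, rfl⟩
        show v ∘ e ∈ σ
        rwa [← hJ, h0]
      · intro hw
        refine ⟨w, hw, ?_⟩
        show w ∘ e = w
        rw [← hJ, h0]
    rw [h1, LinearMap.id_apply, sub_self, LinearMap.zero_apply, LinearMap.zero_apply, map_zero,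
      Pi.zero_apply, add_zero]
  · -- the maps
    set m : ℕ → (ι → ℤ) → ι → ℤ := fun j v x => min (lo j v x) (lo (j + 1) v x) with hm
    set M : ℕ → (ι → ℤ) → ι → ℤ := fun j v x => max (hi j v x) (hi (j + 1) v x) with hM
    have hmM : ∀ j v x, m j v x ≤ M j v x := fun j v x =>
      (min_le_left _ _).trans ((hle j v x).trans (le_max_left _ _))
    have hml : ∀ j, ∀ l ∈ L, ∀ v, m j (v + l) = m j v + l := by
      intro j l hlL v
      funext x
      simp only [hm, hl j l hlL v, hl (j + 1) l hlL v, Pi.add_apply]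
      exact (min_add_add_right _ _ _)
    have hMl : ∀ j, ∀ l ∈ L, ∀ v, M j (v + l) = M j v + l := by
      intro j l hlL v
      funext x
      simp only [hM, hl' j l hlL v, hl' (j + 1) l hlL v, Pi.add_apply]
      exact (max_add_add_right _ _ _)
    have hstep : ∀ j < J, ∀ Φ Φ' : Co ι F →ₗ[F] Co ι F, Car (lw (m j)) (up (M j)) Φ →
        Car (lw (m j)) (up (M j)) Φ' → (∀ l ∈ L, Eqv l Φ) → (∀ l ∈ L, Eqv l Φ') →
        Hm L (fun σ τ => ∃ j < J, ∀ w ∈ τ, Cr lo hi j σ w) Φ Φ'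
          (Ho (lw (m j)) (up (M j)) Φ Φ') := by
      intro j hj Φ Φ' h1 h2 h3 h4
      have hB : Bx (lw (m j)) (up (M j)) := Bx_hull (hmM j)
      refine ⟨fun u => Ho_empty _ _ _ _ u, fun u σ hσ => Ho_hom hB h1 h2 σ u hσ,
        fun u σ hσ hne hu => Ho_supp hB h1 h2 σ u hσ fun τ hτ hc hI => hu τ hτ hc
          ⟨j, hj, fun w hw i => ⟨?_, ?_⟩⟩,
        fun l hlL => Ho_eqv (Bv_lw (hml j l hlL)) (Bv_up (hMl j l hlL)) (h3 l hlL) (h4 l hlL)⟩
      · obtain ⟨v, hv, h5⟩ := lw_ex (m j) hne i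
        have h6 : lw (m j) σ i ≤ w i := (hI w hw).1 i
        rw [h5] at h6
        exact ⟨v, hv, min_le_iff.1 h6⟩
      · obtain ⟨v, hv, h5⟩ := up_ex (M j) hne i
        have h6 : w i ≤ up (M j) σ i := (hI w hw).2 i
        rw [h5] at h6
        exact ⟨v, hv, le_max_iff.1 h6⟩
    -- the operators
    set P : ℕ → (Co ι F →ₗ[F] Co ι F) := fun k =>
      if k = 0 then LinearMap.id else Psi (lw (lo k)) (up (hi k)) with hP
    have hPC : ∀ k, Car (lw (lo k)) (up (hi k)) (P k) := by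
      intro k
      by_cases hk : k = 0
      · subst hk
        simp only [hP, if_true]
        refine Car_id fun σ v hv => ⟨fun x => ?_, fun x => ?_⟩
        · have h1 := lw_le (lo 0) hv x
          rwa [h0] at h1
        · have h1 := le_up (hi 0) hv x
          rwa [h0'] at h1
      · simp only [hP, if_neg hk]
        exact Psi_Car (Bx_hull (hle k))
    have hPE : ∀ k, ∀ l ∈ L, Eqv l (P k) := by
      intro k l hlL
      by_cases hk : k = 0
      · subst hk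
        simp only [hP, if_true]
        intro u u' hu σ hσ
        exact hu σ hσ
      · simp only [hP, if_neg hk]
        exact Psi_eqv (Bv_lw (hl k l hlL)) (Bv_up (hl' k l hlL))
    have hP1 : ∀ k, Car (lw (m k)) (up (M k)) (P k) := fun k => (hPC k).mono
      (fun σ h => lw_mono (fun v x => min_le_left _ _) h subset_rfl)
      (fun σ h => up_mono (fun v x => le_max_left _ _) h subset_rfl)
    have hP2 : ∀ k, Car (lw (m k)) (up (M k)) (P (k + 1)) := fun k => (hPC (k + 1)).mono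
      (fun σ h => lw_mono (fun v x => min_le_right _ _) h subset_rfl)
      (fun σ h => up_mono (fun v x => le_max_right _ _) h subset_rfl)
    have hind : ∀ k ≤ J, ∃ H : Co ι F →ₗ[F] Co ι F,
        Hm L (fun σ τ => ∃ j < J, ∀ w ∈ τ, Cr lo hi j σ w) LinearMap.id (P k) H := by
      intro k
      induction k with
      | zero =>
        intro _
        refine ⟨0, fun _ => rfl, fun u σ hσ => ?_, fun _ _ _ _ _ => rfl,
          fun l hl u u' hu σ hσ => rfl⟩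
        simp only [hP, if_true, sub_self]
        rw [LinearMap.zero_apply, LinearMap.zero_apply, map_zero, Pi.zero_apply, add_zero]
      | succ k ih =>
        intro hk
        obtain ⟨H, hH⟩ := ih (by omega)
        exact ⟨_, hH.add (hstep k (by omega) _ _ (hP1 k) (hP2 k) (hPE k) (hPE (k + 1)))⟩
    obtain ⟨H, hH⟩ := hind J le_rfl
    obtain ⟨k, rfl⟩ : ∃ k, J = k + 1 := ⟨J - 1, by omega⟩
    have hT : Car (F := F) (lw (m k)) (up (M k)) (Tp e) := by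
      refine Car_Tp e fun σ w hw => ?_
      obtain ⟨v, hv, rfl⟩ := Finset.mem_map.1 hw
      refine ⟨fun x => ?_, fun x => ?_⟩
      · have h1 := lw_le (m k) hv x
        have h2 : m k v x ≤ lo (k + 1) v x := min_le_right _ _
        rw [hJ] at h2
        exact h1.trans h2
      · have h1 := le_up (M k) hv x
        have h2 : hi (k + 1) v x ≤ M k v x := le_max_right _ _
        rw [hJ'] at h2
        exact h2.trans h1
    have hTE : ∀ l ∈ L, Eqv (F := F) l (Tp e) := by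
      intro l hlL
      refine Eqv_Tp ?_
      have h1 := hl (k + 1) l hlL 0
      rw [hJ, hJ, zero_add] at h1
      rw [h1]
      funext x
      simp
    exact ⟨_, hH.add (hstep k (by omega) _ _ (hP2 k) hT (hPE (k + 1)) hTE)⟩

/-- **Carrier theorem**, form of helper52. -/
theorem carrier_C (L : AddSubgroup (ι → ℤ)) (J : ℕ) (lo hi : ℕ → (ι → ℤ) → ι → ℤ)
    (e : Equiv.Perm ι) (hle : ∀ j v i, lo j v i ≤ hi j v i) (h0 : ∀ v, lo 0 v = v)
    (h0' : ∀ v, hi 0 v = v) (hJ : ∀ v, lo J v = v ∘ e) (hJ' : ∀ v, hi J v = v ∘ e)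
    (hl : ∀ j, ∀ l ∈ L, ∀ v, lo j (v + l) = lo j v + l)
    (hl' : ∀ j, ∀ l ∈ L, ∀ v, hi j (v + l) = hi j v + l) :
    ∃ H : Co ι F →ₗ[F] Co ι F,
      (∀ (a : Co ι F) (σ : Finset (ι → ℤ)), Simp σ →
        a σ - a (σ.image (fun v => v ∘ e)) = dd (H a) σ + H (dd a) σ) ∧
      (∀ (a : Co ι F) (σ : Finset (ι → ℤ)), H a σ ≠ 0 → Simp σ ∧ ∃ ρ, a ρ ≠ 0 ∧ Simp ρ ∧
        ρ.card = σ.card + 1 ∧ ∃ j < J, ∀ w ∈ ρ, ∀ i,
          (∃ v ∈ σ, lo j v i ≤ w i ∨ lo (j + 1) v i ≤ w i) ∧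
          ∃ v ∈ σ, w i ≤ hi j v i ∨ w i ≤ hi (j + 1) v i) ∧
      ∀ a : Co ι F, (∀ l ∈ L, ∀ σ, a (tr l σ) = a σ) → ∀ l ∈ L, ∀ σ, H a (tr l σ) = H a σ := by
  classical
  obtain ⟨H, hH⟩ := carrier_T (F := F) L J lo hi e hle h0 h0' hJ hJ' hl hl'
  refine ⟨-((cut Simp).comp H), fun a σ hσ => ?_, fun a σ h => ?_, fun a ha l hl σ => ?_⟩
  · have h1 := hH.hom a σ hσ
    have h2 : dd (cut Simp (H a)) σ = dd (H a) σ := Car_dd_congr fun v _ => by
      rw [H47.ST.cut_apply, if_pos (hσ.mono (Finset.erase_subset v σ))]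
    have h3 : cut Simp (H (dd a)) σ = H (dd a) σ := by
      rw [H47.ST.cut_apply, if_pos hσ]
    have h4 : Tp e a σ = a (σ.image (fun v => v ∘ e)) := by
      show a (σ.map _) = _
      rw [Finset.map_eq_image]
      congr 1
    rw [LinearMap.neg_apply, LinearMap.neg_apply, map_neg, Pi.neg_apply, Pi.neg_apply,
      LinearMap.comp_apply, LinearMap.comp_apply, h2, h3, ← h4]
    rw [LinearMap.id_apply] at h1
    linear_combination h1
  · have h1 : cut Simp (H a) σ ≠ 0 := by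
      intro h1
      exact h (by rw [LinearMap.neg_apply, Pi.neg_apply, LinearMap.comp_apply, h1, neg_zero])
    have h2 : Simp σ := by
      by_contra h2
      rw [H47.ST.cut_apply, if_neg h2] at h1
      exact h1 rfl
    refine ⟨h2, ?_⟩
    rw [H47.ST.cut_apply, if_pos h2] at h1
    have h3 : σ.Nonempty := by
      rw [Finset.nonempty_iff_ne_empty]
      rintro rfl
      exact h1 (hH.emp a)
    by_contra h4
    push Not at h4
    refine h1 (hH.supp a σ h2 h3 fun τ hτ hc ⟨j, hj, hI⟩ => ?_)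
    by_contra h5
    obtain ⟨w, hw, i, h6⟩ := h4 τ h5 hτ hc j hj
    obtain ⟨⟨v, hv, h7⟩, v', hv', h8⟩ := hI w hw i
    have h9 := h6 ⟨v, hv, h7⟩ v' hv'
    omega
  · rw [LinearMap.neg_apply, Pi.neg_apply, Pi.neg_apply, LinearMap.comp_apply, H47.ST.cut_apply,
      H47.ST.cut_apply]
    by_cases h : Simp σ
    · rw [if_pos h, if_pos (H47.ST.CellA_tr_Simp.2 h),
        hH.eqv l hl a a (fun τ _ => ha l hl τ) σ h]
    · rw [if_neg h, if_neg fun h' => h (H47.ST.CellA_tr_Simp.1 h')]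

end Pool.Agent.H86.FU
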