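import Pool.Agent.H86.FU.Pri

/-!
# Contraction of the simplices above a vertex

`kap N a` is a linear operator on cochains with `dd (kap u) + kap (dd u) = u` on all simplices (the
empty one included) with vertices between `a` and `a + N`.
-/

set_option autoImplicit false

namespace Pool.Agent.H86.FU

open Pool.Agent.H21.TU
open Pool.Agent.H47.ST (Co Simp sgn dd tr)

variable {ι F : Type*} [Fintype ι] [DecidableEq ι] [Field F]

omit [Fintype ι] [DecidableEq ι] [Field F] in
theorem Kap_del_same {V : Type*} {s : ℕ → V} {i : ℕ} (h : s i = s (i + 1)) :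
    del i s = del (i + 1) s := by
  funext j
  simp only [del]
  by_cases h1 : j < i
  · rw [if_pos h1, if_pos (by omega)]
  · rw [if_neg h1]
    by_cases h2 : j < i + 1
    · have h3 : j = i := by omega
      rw [if_pos h2, h3, h]
    · rw [if_neg h2]

/-- the coboundary on weakly increasing sequences -/
theorem d_hat_w {p : ℕ} (u : Co ι F) {s : ℕ → ι → ℤ} (hs : Ch (p + 1) s) :
    d p (hat p u) s = hat (p + 1) (dd u) s := by
  classical
  by_cases h : ∀ i < p + 1, s i < s (i + 1)
  · exact d_hat u h hs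
  · have hR : hat (p + 1) (dd u) s = 0 := by
      unfold hat
      rw [if_neg fun h' => h h'.1]
    rw [hR]
    push Not at h
    obtain ⟨i0, hi0, h0⟩ := h
    have he : s i0 = s (i0 + 1) := by
      have h1 := (hs i0 (i0 + 1) (by omega) (by omega)).1
      by_contra h2
      exact h0 (lt_of_le_of_ne h1 h2)
    have hz : ∀ i ∈ Finset.range (p + 2), i ≠ i0 → i ≠ i0 + 1 →
        (-1 : F) ^ i * hat p u (del i s) = 0 := by
      intro i hi h1 h2
      rw [Finset.mem_range] at hi
      have h3 : hat p u (del i s) = 0 := by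
        unfold hat
        rw [if_neg]
        rintro ⟨h4, -⟩
        rcases Nat.lt_or_ge i i0 with h5 | h5
        · have h6 := h4 (i0 - 1) (by omega)
          simp only [del] at h6
          rw [if_neg (by omega), if_neg (by omega)] at h6
          have h7 : i0 - 1 + 1 = i0 := by omega
          rw [h7, he] at h6
          exact lt_irrefl _ h6
        · have h6 := h4 i0 (by omega)
          simp only [del] at h6
          rw [if_pos (by omega), if_pos (by omega), he] at h6
          exact lt_irrefl _ h6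
      rw [h3, mul_zero]
    unfold d
    have h1 : i0 ∈ Finset.range (p + 2) := Finset.mem_range.2 (by omega)
    have h2 : i0 + 1 ∈ (Finset.range (p + 2)).erase i0 :=
      Finset.mem_erase.2 ⟨by omega, Finset.mem_range.2 (by omega)⟩
    rw [← Finset.add_sum_erase _ _ h1, ← Finset.add_sum_erase _ _ h2,
      Finset.sum_eq_zero fun i hi => hz i (Finset.mem_of_mem_erase (Finset.mem_of_mem_erase hi))
        (Finset.ne_of_mem_erase (Finset.mem_of_mem_erase hi)) (Finset.ne_of_mem_erase hi),
      Kap_del_same he, pow_succ]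
    ring

theorem Kap_hat_add (p : ℕ) (u u' : Co ι F) (s : ℕ → ι → ℤ) :
    hat p (u + u') s = hat p u s + hat p u' s := by
  unfold hat; split_ifs <;> simp

theorem Kap_hat_smul (p : ℕ) (t : F) (u : Co ι F) (s : ℕ → ι → ℤ) :
    hat p (t • u) s = t * hat p u s := by
  unfold hat; split_ifs <;> simp

/-- `min(v, a + k)` -/
def rr (a : ι → ℤ) (k : ℕ) (v : ι → ℤ) : ι → ℤ := fun i => min (v i) (a i + k)

/-- contraction of the simplices above `a` -/
noncomputable def kap (N : ℕ) (a : ι → ℤ) : Co ι F →ₗ[F] Co ι F where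
  toFun u σ := if σ = ∅ then u {a} else
    ∑ k ∈ Finset.range N, Pr (rr a k) (rr a (k + 1)) (σ.card - 1) (hat σ.card u) (en σ)
  map_add' u u' := by
    funext σ
    by_cases h : σ = ∅
    · simp [h]
    · simp only [if_neg h, Pi.add_apply]
      rw [← Finset.sum_add_distrib]
      refine Finset.sum_congr rfl fun k _ => ?_
      unfold Pr
      rw [← Finset.sum_add_distrib]
      refine Finset.sum_congr rfl fun i _ => ?_
      rw [Kap_hat_add]; ring
  map_smul' t u := by
    funext σ
    by_cases h : σ = ∅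
    · simp [h]
    · simp only [if_neg h, Pi.smul_apply, smul_eq_mul, RingHom.id_apply]
      rw [Finset.mul_sum]
      refine Finset.sum_congr rfl fun k _ => ?_
      unfold Pr
      rw [Finset.mul_sum]
      refine Finset.sum_congr rfl fun i _ => ?_
      rw [Kap_hat_smul]; ring

theorem kap_empty (N : ℕ) (a : ι → ℤ) (u : Co ι F) : kap N a u ∅ = u {a} := by
  simp [kap]

theorem kap_ne {σ : Finset (ι → ℤ)} {p : ℕ} (hσ : σ.card = p + 1) (N : ℕ) (a : ι → ℤ)
    (u : Co ι F) : kap N a u σ =
      ∑ k ∈ Finset.range N, Pr (rr a k) (rr a (k + 1)) p (hat (p + 1) u) (en σ) := by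
  have h : σ ≠ ∅ := by
    rintro rfl
    simp at hσ
  have h1 : kap N a u σ = ∑ k ∈ Finset.range N,
      Pr (rr a k) (rr a (k + 1)) (σ.card - 1) (hat σ.card u) (en σ) := if_neg h
  rw [h1, hσ, Nat.add_sub_cancel]

/-- the prism sequences stay in one simplex -/
theorem Kap_Ch (a : ι → ℤ) (k : ℕ) {p i : ℕ} {s : ℕ → ι → ℤ} (hs : Ch p s) (hi : i ≤ p) :
    Ch (p + 1) (pj (rr a k) (rr a (k + 1)) i s) := by
  intro j j' hjj hj'
  simp only [pj]
  split_ifs with h1 h2 h2
  · obtain ⟨h3, h4⟩ := hs j j' hjj (by omega)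
    refine ⟨fun x => ?_, fun x => ?_⟩
    · have h5 : s j x ≤ s j' x := h3 x
      show min (s j x) (a x + (k : ℤ)) ≤ min (s j' x) (a x + (k : ℤ))
      omega
    · have h5 : s j' x ≤ s j x + 1 := h4 x
      show min (s j' x) (a x + (k : ℤ)) ≤ min (s j x) (a x + (k : ℤ)) + 1
      omega
  · obtain ⟨h3, h4⟩ := hs j (j' - 1) (by omega) (by omega)
    refine ⟨fun x => ?_, fun x => ?_⟩
    · have h5 : s j x ≤ s (j' - 1) x := h3 x
      show min (s j x) (a x + (k : ℤ)) ≤ min (s (j' - 1) x) (a x + ((k + 1 : ℕ) : ℤ))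
      push_cast
      omega
    · have h5 : s (j' - 1) x ≤ s j x + 1 := h4 x
      show min (s (j' - 1) x) (a x + ((k + 1 : ℕ) : ℤ)) ≤ min (s j x) (a x + (k : ℤ)) + 1
      push_cast
      omega
  · omega
  · obtain ⟨h3, h4⟩ := hs (j - 1) (j' - 1) (by omega) (by omega)
    refine ⟨fun x => ?_, fun x => ?_⟩
    · have h5 : s (j - 1) x ≤ s (j' - 1) x := h3 x
      show min (s (j - 1) x) (a x + ((k + 1 : ℕ) : ℤ)) ≤
        min (s (j' - 1) x) (a x + ((k + 1 : ℕ) : ℤ))
      omega
    · have h5 : s (j' - 1) x ≤ s (j - 1) x + 1 := h4 x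
      show min (s (j' - 1) x) (a x + ((k + 1 : ℕ) : ℤ)) ≤
        min (s (j - 1) x) (a x + ((k + 1 : ℕ) : ℤ)) + 1
      omega

/-- the telescoping sum of the prisms -/
theorem Kap_tel (a : ι → ℤ) (N : ℕ) {p : ℕ} (u : Co ι F) {s : ℕ → ι → ℤ} (hs : Ch p s)
    (h1 : ∀ i ≤ p, a ≤ s i) (h2 : ∀ i ≤ p, ∀ x, s i x ≤ a x + N) :
    ∑ k ∈ Finset.range N, (hat p u (fun j => rr a (k + 1) (s j)) - hat p u fun j => rr a k (s j)) =
      hat p u s - hat p u fun _ => a := by
  rw [Finset.sum_range_sub (fun k => hat p u fun j => rr a k (s j))]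
  congr 1
  · refine Dep.hat p u _ _ fun i hi => ?_
    funext x
    have h3 : s i x ≤ a x + N := h2 i hi x
    show min (s i x) (a x + (N : ℤ)) = s i x
    omega
  · refine Dep.hat p u _ _ fun i hi => ?_
    funext x
    have h3 : a x ≤ s i x := h1 i hi x
    show min (s i x) (a x + ((0 : ℕ) : ℤ)) = a x
    push_cast
    omega

omit [Fintype ι] in
theorem Kap_Pr_congr {V : Type*} (r r' : V → V) {p : ℕ} {c c' : K V F} (s : ℕ → V)
    (h : ∀ i ≤ p, c (pj r r' i s) = c' (pj r r' i s)) : Pr r r' p c s = Pr r r' p c' s := by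
  unfold Pr
  refine Finset.sum_congr rfl fun i hi => ?_
  rw [Finset.mem_range] at hi
  rw [h i (by omega)]

theorem Kap_Dep_Pr {V : Type*} (r r' : V → V) {p : ℕ} {c : K V F} (hc : Dep (p + 1) c) :
    Dep p (Pr r r' p c) := by
  intro s t hst
  unfold Pr
  refine Finset.sum_congr rfl fun i hi => ?_
  rw [Finset.mem_range] at hi
  congr 1
  refine hc _ _ fun j hj => ?_
  simp only [pj]
  split_ifs with h1
  · rw [hst j (by omega)]
  · rw [hst (j - 1) (by omega)]

/-- **Contraction identity.** -/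
theorem kap_id {N : ℕ} {a : ι → ℤ} (u : Co ι F) {σ : Finset (ι → ℤ)} (hσ : Simp σ)
    (h1 : ∀ v ∈ σ, a ≤ v) (h2 : ∀ v ∈ σ, ∀ x, v x ≤ a x + N) :
    dd (kap N a u) σ + kap N a (dd u) σ = u σ := by
  classical
  rcases Nat.eq_zero_or_pos σ.card with h0 | h0
  · rw [Finset.card_eq_zero] at h0
    subst h0
    rw [kap_empty, H47.ST.dd_apply, H47.ST.dd_apply, Finset.sum_empty, Finset.sum_singleton,
      Finset.erase_singleton, zero_add]
    have h3 : sgn F ({a} : Finset (ι → ℤ)) a = 1 := by
      unfold sgn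
      rw [Finset.filter_singleton, if_neg (lt_irrefl _), Finset.card_empty, pow_zero]
    rw [h3, one_mul]
  · obtain ⟨p, hp⟩ : ∃ p, σ.card = p + 1 := ⟨σ.card - 1, by omega⟩
    obtain ⟨he1, he2, he3⟩ := en_spec hσ hp
    have hen : ∀ i ≤ p, en σ i ∈ σ := fun i hi => by
      have h4 : en σ i ∈ (Finset.range (p + 1)).image (en σ) :=
        Finset.mem_image.2 ⟨i, Finset.mem_range.2 (by omega), rfl⟩
      rwa [he3] at h4
    have hu : hat p u (en σ) = u σ := by
      unfold hat
      rw [if_pos ⟨he1, he2⟩, he3]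
    have htel := Kap_tel a N u he2 (fun i hi => h1 _ (hen i hi)) (fun i hi => h2 _ (hen i hi))
    rw [hu] at htel
    have hk : kap N a (dd u) σ =
        ∑ k ∈ Finset.range N, Pr (rr a k) (rr a (k + 1)) p (d p (hat p u)) (en σ) := by
      rw [kap_ne hp]
      refine Finset.sum_congr rfl fun k _ => Kap_Pr_congr _ _ _ fun i hi => ?_
      rw [d_hat_w u (Kap_Ch a k he2 hi)]
    rcases Nat.eq_zero_or_pos p with hp0 | hp0
    · subst hp0
      obtain ⟨v, rfl⟩ := Finset.card_eq_one.1 hp
      have h3 : dd (kap N a u) {v} = u {a} := by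
        rw [H47.ST.dd_apply, Finset.sum_singleton, Finset.erase_singleton, kap_empty]
        have h3 : sgn F ({v} : Finset (ι → ℤ)) v = 1 := by
          unfold sgn
          rw [Finset.filter_singleton, if_neg (lt_irrefl _), Finset.card_empty, pow_zero]
        rw [h3, one_mul]
      have h4 : hat 0 u (fun _ => a) = u {a} := by
        unfold hat
        rw [if_pos ⟨fun i hi => absurd hi (Nat.not_lt_zero _), fun i j hij hj =>
          ⟨le_rfl, fun x => by simp⟩⟩]
        congr 1
      rw [hk, h3, Finset.sum_congr rfl fun k _ => Pr_zero (rr a k) (rr a (k + 1)) (Dep.hat 0 u) _,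
        htel, h4]
      ring
    · obtain ⟨q, rfl⟩ : ∃ q, p = q + 1 := ⟨p - 1, by omega⟩
      have h3 : dd (kap N a u) σ = ∑ k ∈ Finset.range N,
          d q (Pr (rr a k) (rr a (k + 1)) q (hat (q + 1) u)) (en σ) := by
        have hD : Dep q (fun s => ∑ k ∈ Finset.range N,
            Pr (rr a k) (rr a (k + 1)) q (hat (q + 1) u) s) := by
          intro s t hst
          exact Finset.sum_congr rfl fun k _ => Kap_Dep_Pr _ _ (Dep.hat _ _) _ _ hst
        have h4 : dd (kap N a u) σ = dd (fl q (fun s => ∑ k ∈ Finset.range N,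
            Pr (rr a k) (rr a (k + 1)) q (hat (q + 1) u) s)) σ := by
          rw [H47.ST.dd_apply, H47.ST.dd_apply]
          refine Finset.sum_congr rfl fun v hv => ?_
          have h5 : (σ.erase v).card = q + 1 := by
            rw [Finset.card_erase_of_mem hv]; omega
          rw [kap_ne h5]
          unfold fl
          rw [if_pos ⟨hσ.mono (Finset.erase_subset v σ), h5⟩]
        rw [h4, dd_fl hD hσ hp]
        unfold fl
        rw [if_pos ⟨hσ, hp⟩]
        unfold d
        rw [Finset.sum_congr rfl fun i _ => Finset.mul_sum _ _ _, Finset.sum_comm]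
      have h5 : hat (q + 1) u (fun _ => a) = 0 := by
        unfold hat
        rw [if_neg fun h' => lt_irrefl _ (h'.1 0 (by omega))]
      rw [hk, h3, ← Finset.sum_add_distrib,
        Finset.sum_congr rfl fun k _ => d_Pr (rr a k) (rr a (k + 1)) (Dep.hat (q + 1) u) _, htel,
        h5, sub_zero]

/-- `kap u σ` depends only on the simplices in a box containing `a` and `σ`. -/
theorem kap_supp {N : ℕ} {a t : ι → ℤ} {u : Co ι F} {σ : Finset (ι → ℤ)} (hσ : Simp σ)
    (hat' : a ≤ t) (h2 : ∀ v ∈ σ, a ≤ v ∧ v ≤ t)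
    (hu : ∀ τ : Finset (ι → ℤ), Simp τ → τ.card = σ.card + 1 → (∀ v ∈ τ, a ≤ v ∧ v ≤ t) → u τ = 0) :
    kap N a u σ = 0 := by
  classical
  rcases Nat.eq_zero_or_pos σ.card with h0 | h0
  · rw [Finset.card_eq_zero] at h0
    subst h0
    rw [kap_empty]
    refine hu _ ?_ (by simp) ?_
    · intro v hv w hw
      rw [Finset.mem_singleton] at hv hw
      rw [hv, hw]
      exact Or.inl ⟨le_rfl, fun x => by simp⟩
    · intro v hv
      rw [Finset.mem_singleton] at hv
      rw [hv]
      exact ⟨le_rfl, hat'⟩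
  · obtain ⟨p, hp⟩ : ∃ p, σ.card = p + 1 := ⟨σ.card - 1, by omega⟩
    obtain ⟨he1, he2, he3⟩ := en_spec hσ hp
    have hen : ∀ i ≤ p, en σ i ∈ σ := fun i hi => by
      have h4 : en σ i ∈ (Finset.range (p + 1)).image (en σ) :=
        Finset.mem_image.2 ⟨i, Finset.mem_range.2 (by omega), rfl⟩
      rwa [he3] at h4
    rw [kap_ne hp]
    refine Finset.sum_eq_zero fun k _ => ?_
    unfold Pr
    refine Finset.sum_eq_zero fun i hi => ?_
    rw [Finset.mem_range] at hi
    have h3 : hat (p + 1) u (pj (rr a k) (rr a (k + 1)) i (en σ)) = 0 := by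
      unfold hat
      split_ifs with h4
      · obtain ⟨h5, h6, -⟩ := en_image h4.1 h4.2
        refine hu _ h5 (by rw [h6, hp]) ?_
        intro w hw
        obtain ⟨j, hj, rfl⟩ := Finset.mem_image.1 hw
        rw [Finset.mem_range] at hj
        simp only [pj]
        split_ifs with h7
        · obtain ⟨h8, h9⟩ := h2 _ (hen j (by omega))
          refine ⟨fun x => ?_, fun x => ?_⟩
          · have h10 : a x ≤ en σ j x := h8 x
            show a x ≤ min (en σ j x) (a x + (k : ℤ))
            omega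
          · have h10 : en σ j x ≤ t x := h9 x
            show min (en σ j x) (a x + (k : ℤ)) ≤ t x
            omega
        · obtain ⟨h8, h9⟩ := h2 _ (hen (j - 1) (by omega))
          refine ⟨fun x => ?_, fun x => ?_⟩
          · have h10 : a x ≤ en σ (j - 1) x := h8 x
            show a x ≤ min (en σ (j - 1) x) (a x + ((k + 1 : ℕ) : ℤ))
            omega
          · have h10 : en σ (j - 1) x ≤ t x := h9 x
            show min (en σ (j - 1) x) (a x + ((k + 1 : ℕ) : ℤ)) ≤ t x
            omega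
      · rfl
    rw [h3, mul_zero]

theorem Kap_en_tr {l : ι → ℤ} {p : ℕ} {σ : Finset (ι → ℤ)} (hσ : Simp σ) (hp : σ.card = p + 1) :
    ∀ i ≤ p, en (tr l σ) i = en σ i + l := by
  classical
  obtain ⟨he1, he2, he3⟩ := en_spec hσ hp
  have h1 : ∀ i < p, (fun j => en σ j + l) i < (fun j => en σ j + l) (i + 1) := by
    intro i hi
    exact (add_lt_add_iff_right l).2 (he1 i hi)
  have h2 : Ch p (fun j => en σ j + l) := by
    intro i j hij hj
    obtain ⟨h3, h4⟩ := he2 i j hij hj
    refine ⟨(add_le_add_iff_right l).2 h3, ?_⟩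
    show en σ j + l ≤ en σ i + l + 1
    rw [add_right_comm]
    exact (add_le_add_iff_right l).2 h4
  obtain ⟨-, -, h5⟩ := en_image h1 h2
  have h6 : (Finset.range (p + 1)).image (fun j => en σ j + l) = tr l σ := by
    conv_rhs => rw [← he3]
    ext w
    rw [H47.ST.CellA_tr_mem, Finset.mem_image]
    constructor
    · rintro ⟨i, hi, rfl⟩
      exact ⟨_, Finset.mem_image.2 ⟨i, hi, rfl⟩, rfl⟩
    · rintro ⟨v, hv, rfl⟩
      obtain ⟨i, hi, rfl⟩ := Finset.mem_image.1 hv
      exact ⟨i, hi, rfl⟩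
  intro i hi
  rw [← h6]
  exact h5 i hi

theorem Kap_hat_tr {l : ι → ℤ} {u u' : Co ι F} (hu : ∀ σ, Simp σ → u (tr l σ) = u' σ) (p : ℕ)
    (s : ℕ → ι → ℤ) : hat p u (fun j => s j + l) = hat p u' s := by
  classical
  have h1 : (∀ i < p, s i + l < s (i + 1) + l) ↔ ∀ i < p, s i < s (i + 1) := by
    refine forall_congr' fun i => forall_congr' fun _ => add_lt_add_iff_right l
  have h2 : Ch p (fun j => s j + l) ↔ Ch p s := by
    refine forall_congr' fun i => forall_congr' fun j => forall_congr' fun _ =>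
      forall_congr' fun _ => ?_
    rw [add_le_add_iff_right, add_right_comm, add_le_add_iff_right]
  have h3 : (Finset.range (p + 1)).image (fun j => s j + l) =
      tr l ((Finset.range (p + 1)).image s) := by
    ext w
    rw [H47.ST.CellA_tr_mem, Finset.mem_image]
    constructor
    · rintro ⟨i, hi, rfl⟩
      exact ⟨_, Finset.mem_image.2 ⟨i, hi, rfl⟩, rfl⟩
    · rintro ⟨v, hv, rfl⟩
      obtain ⟨i, hi, rfl⟩ := Finset.mem_image.1 hv
      exact ⟨i, hi, rfl⟩
  unfold hat
  simp only [h1, h2, h3]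
  by_cases h : (∀ i < p, s i < s (i + 1)) ∧ Ch p s
  · rw [if_pos h, if_pos h, hu _ (en_image h.1 h.2).1]
  · rw [if_neg h, if_neg h]

/-- translation -/
theorem kap_tr {N : ℕ} {a l : ι → ℤ} {u u' : Co ι F}
    (hu : ∀ σ, Simp σ → u (tr l σ) = u' σ)
    {σ : Finset (ι → ℤ)} (hσ : Simp σ) : kap N (a + l) u (tr l σ) = kap N a u' σ := by
  classical
  rcases Nat.eq_zero_or_pos σ.card with h0 | h0
  · rw [Finset.card_eq_zero] at h0
    subst h0
    have h1 : tr l (∅ : Finset (ι → ℤ)) = ∅ := Finset.map_empty _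
    have h2 : Simp ({a} : Finset (ι → ℤ)) := by
      intro v hv w hw
      rw [Finset.mem_singleton] at hv hw
      rw [hv, hw]
      exact Or.inl ⟨le_rfl, fun x => by simp⟩
    rw [h1, kap_empty, kap_empty, ← hu _ h2]
    congr 1
  · obtain ⟨p, hp⟩ : ∃ p, σ.card = p + 1 := ⟨σ.card - 1, by omega⟩
    have hp' : (tr l σ).card = p + 1 := by
      rw [← hp]
      exact Finset.card_map _
    rw [kap_ne hp, kap_ne hp']
    refine Finset.sum_congr rfl fun k _ => ?_
    unfold Pr
    refine Finset.sum_congr rfl fun i hi => ?_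
    rw [Finset.mem_range] at hi
    congr 1
    rw [← Kap_hat_tr hu (p + 1) (pj (rr a k) (rr a (k + 1)) i (en σ))]
    refine Dep.hat _ _ _ _ fun j hj => ?_
    have hr : ∀ (m : ℕ) (v : ι → ℤ), rr (a + l) m (v + l) = rr a m v + l := by
      intro m v
      funext x
      simp only [rr, Pi.add_apply]
      omega
    simp only [pj]
    split_ifs with h1
    · rw [Kap_en_tr hσ hp j (by omega), hr]
    · rw [Kap_en_tr hσ hp (j - 1) (by omega), hr]

end Pool.Agent.H86.FU
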