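import Pool.Agent.H21.TU.Hat

/-!
# Prism operators on cochains of sequences

For two maps `r`, `r'` of vertices the prism operator `Pr` satisfies
`d (Pr c) + Pr (d c) = c ∘ r' - c ∘ r`.
-/

set_option autoImplicit false

namespace Pool.Agent.H86.FU

open Pool.Agent.H21.TU
open Pool.Agent.H47.ST (Co Simp sgn dd)

variable {V F : Type*} [Field F]

/-- the sequence `r s₀, …, r sᵢ, r' sᵢ, r' sᵢ₊₁, …` -/
def pj (r r' : V → V) (i : ℕ) (s : ℕ → V) : ℕ → V := fun j => if j ≤ i then r (s j) else r' (s (j - 1))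

/-- the prism operator -/
def Pr (r r' : V → V) (p : ℕ) (c : K V F) : K V F := fun s =>
  ∑ i ∈ Finset.range (p + 1), (-1) ^ i * c (pj r r' i s)

/-- the sequence `r s₀, …, r sᵢ₋₁, r' sᵢ, …` -/
def Pri_q (r r' : V → V) (i : ℕ) (s : ℕ → V) : ℕ → V := fun j => if j < i then r (s j) else r' (s j)

theorem Pri_lt (r r' : V → V) {i l : ℕ} (h : l ≤ i) (s : ℕ → V) :
    del l (pj r r' (i + 1) s) = pj r r' i (del l s) := by
  funext j
  simp only [del, pj]
  by_cases h1 : j < l
  · rw [if_pos h1, if_pos (by omega), if_pos (by omega), if_pos h1]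
  · rw [if_neg h1]
    by_cases h2 : j ≤ i
    · rw [if_pos (by omega), if_pos h2, if_neg h1]
    · rw [if_neg (by omega), if_neg h2, if_neg (by omega)]
      congr 2
      omega

theorem Pri_gt (r r' : V → V) {i l : ℕ} (h : i < l) (s : ℕ → V) :
    del (l + 1) (pj r r' i s) = pj r r' i (del l s) := by
  funext j
  simp only [del, pj]
  by_cases h1 : j ≤ i
  · rw [if_pos (show j < l + 1 by omega), if_pos h1, if_pos h1, if_pos (show j < l by omega)]
  · by_cases h2 : j < l + 1
    · rw [if_pos h2, if_neg h1, if_neg h1, if_pos (by omega)]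
    · rw [if_neg h2, if_neg (by omega), if_neg h1, if_neg (by omega)]
      congr 2
      omega

theorem Pri_eq (r r' : V → V) (i : ℕ) (s : ℕ → V) : del i (pj r r' i s) = Pri_q r r' i s := by
  funext j
  simp only [del, pj, Pri_q]
  by_cases h1 : j < i
  · rw [if_pos h1, if_pos h1.le, if_pos h1]
  · rw [if_neg h1, if_neg (by omega), if_neg h1]
    congr 2

theorem Pri_succ (r r' : V → V) (i : ℕ) (s : ℕ → V) :
    del (i + 1) (pj r r' i s) = Pri_q r r' (i + 1) s := by
  funext j
  simp only [del, pj, Pri_q]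
  by_cases h1 : j < i + 1
  · rw [if_pos h1, if_pos (by omega), if_pos h1]
  · rw [if_neg h1, if_neg (by omega), if_neg h1]
    congr 2

theorem Pri_q_zero (r r' : V → V) (s : ℕ → V) : Pri_q r r' 0 s = fun j => r' (s j) := by
  funext j
  simp [Pri_q]

/-- the sum over one prism -/
theorem Pri_row (r r' : V → V) (p i : ℕ) (hi : i ≤ p + 1) (c : K V F) (s : ℕ → V) :
    (-1 : F) ^ i * d (p + 1) c (pj r r' i s) =
      ∑ l ∈ Finset.range i, (-1) ^ (i + l) * c (del l (pj r r' i s)) +
      (c (Pri_q r r' i s) - c (Pri_q r r' (i + 1) s)) -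
      ∑ l ∈ Finset.range (p + 1 - i), (-1) ^ (i + (i + 1 + l)) * c (pj r r' i (del (i + 1 + l) s)) := by
  unfold d
  have h1 : p + 1 + 2 = i + (2 + (p + 1 - i)) := by omega
  rw [h1, Finset.sum_range_add, Finset.sum_range_add, Finset.sum_range_succ, Finset.sum_range_one,
    mul_add, mul_add, add_zero, Pri_eq, Pri_succ, Finset.mul_sum, Finset.mul_sum, ← add_assoc,
    sub_eq_add_neg _ (∑ l ∈ _, _)]
  congr 1
  · congr 1
    · refine Finset.sum_congr rfl fun l _ => ?_
      rw [pow_add]; ring
    · have h2 : (-1 : F) ^ i * (-1) ^ i = 1 := by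
        rw [← mul_pow]; norm_num
      rw [pow_succ]
      linear_combination (c (Pri_q r r' i s) - c (Pri_q r r' (i + 1) s)) * h2
  · rw [← Finset.sum_neg_distrib]
    refine Finset.sum_congr rfl fun l _ => ?_
    have h3 : i + (2 + l) = (i + 1 + l) + 1 := by omega
    rw [h3, Pri_gt r r' (by omega), pow_succ, pow_add]
    ring

/-- **Prism identity.** -/
theorem d_Pr (r r' : V → V) {p : ℕ} {c : K V F} (hc : Dep (p + 1) c) (s : ℕ → V) :
    d p (Pr r r' p c) s + Pr r r' (p + 1) (d (p + 1) c) s =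
      c (fun j => r' (s j)) - c (fun j => r (s j)) := by
  have h1 : Pr r r' (p + 1) (d (p + 1) c) s =
      ∑ i ∈ Finset.range (p + 1), ∑ l ∈ Finset.range (i + 1),
        (-1) ^ (i + 1 + l) * c (pj r r' i (del l s)) +
      (c (fun j => r' (s j)) - c (fun j => r (s j))) -
      ∑ i ∈ Finset.range (p + 1), ∑ l ∈ Finset.range (p + 1 - i),
        (-1) ^ (i + (i + 1 + l)) * c (pj r r' i (del (i + 1 + l) s)) := by
    unfold Pr
    rw [Finset.sum_congr rfl fun i hi => Pri_row r r' p i (by
      rw [Finset.mem_range] at hi; omega) c s]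
    rw [Finset.sum_sub_distrib, Finset.sum_add_distrib]
    congr 1
    · congr 1
      · rw [Finset.sum_range_succ', Finset.range_zero, Finset.sum_empty, add_zero]
        refine Finset.sum_congr rfl fun i _ => Finset.sum_congr rfl fun l hl => ?_
        rw [Finset.mem_range] at hl
        rw [Pri_lt r r' (by omega)]
      · rw [Finset.sum_range_sub', Pri_q_zero]
        congr 1
        refine hc _ _ fun j hj => ?_
        simp only [Pri_q]
        rw [if_pos (by omega)]
    · rw [Finset.sum_range_succ, Nat.sub_self, Finset.range_zero, Finset.sum_empty, add_zero]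
  have h2 : d p (Pr r r' p c) s = ∑ i ∈ Finset.range (p + 1),
      (∑ l ∈ Finset.range (i + 1), (-1) ^ (i + l) * c (pj r r' i (del l s)) +
       ∑ l ∈ Finset.range (p + 1 - i),
        (-1) ^ (i + (i + 1 + l)) * c (pj r r' i (del (i + 1 + l) s))) := by
    unfold d Pr
    rw [Finset.sum_congr rfl fun l _ => Finset.mul_sum _ _ _, Finset.sum_comm]
    refine Finset.sum_congr rfl fun i hi => ?_
    rw [Finset.mem_range] at hi
    rw [show p + 2 = (i + 1) + (p + 1 - i) by omega, Finset.sum_range_add]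
    congr 1
    · refine Finset.sum_congr rfl fun l _ => ?_
      rw [pow_add]; ring
    · refine Finset.sum_congr rfl fun l _ => ?_
      rw [pow_add _ i (i + 1 + l)]; ring
  rw [h1, h2, Finset.sum_add_distrib]
  have h3 : ∑ i ∈ Finset.range (p + 1), ∑ l ∈ Finset.range (i + 1),
        (-1 : F) ^ (i + 1 + l) * c (pj r r' i (del l s)) =
      - ∑ i ∈ Finset.range (p + 1), ∑ l ∈ Finset.range (i + 1),
        (-1) ^ (i + l) * c (pj r r' i (del l s)) := by
    rw [← Finset.sum_neg_distrib]
    refine Finset.sum_congr rfl fun i _ => ?_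
    rw [← Finset.sum_neg_distrib]
    refine Finset.sum_congr rfl fun l _ => ?_
    rw [show i + 1 + l = (i + l) + 1 by omega, pow_succ]
    ring
  rw [h3]
  ring

/-- the prism identity in degree `0` -/
theorem Pr_zero (r r' : V → V) {c : K V F} (hc : Dep 0 c) (s : ℕ → V) :
    Pr r r' 0 (d 0 c) s = c (fun j => r' (s j)) - c (fun j => r (s j)) := by
  have h1 : del 0 (pj r r' 0 s) = fun j => r' (s j) := by rw [Pri_eq, Pri_q_zero]
  have h2 : c (del 1 (pj r r' 0 s)) = c (fun j => r (s j)) := by
    refine hc _ _ fun j hj => ?_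
    have h3 := Pri_succ r r' 0 s
    rw [zero_add] at h3
    rw [h3]
    simp only [Pri_q]
    rw [if_pos (by omega)]
  unfold Pr d
  rw [Finset.sum_range_one, Finset.sum_range_succ, Finset.sum_range_one, h1, h2]
  ring

end Pool.Agent.H86.FU
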