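import Pool.Agent.H86.FU.Cfin

/-!
# The transfer lemma on one grid
-/

set_option autoImplicit false

namespace Pool.Agent.H86.FU

open Pool.Agent.H47.ST (Co Simp sgn dd tr dX In Inv co Tp ta pe cut PInv Adj)

variable {ι F : Type*} [Fintype ι] [DecidableEq ι] [Field F]

/-- vertices at sup distance at most `κ` -/
def Nk' (κ : ℤ) (v w : ι → ℤ) : Prop := ∀ i, |w i - v i| ≤ κ

/-- `v ∈ X` has a neighbour in `X` outside `A'` (or is such a vertex) -/
def Live' (X A' : Set (ι → ℤ)) (v : ι → ℤ) : Prop := v ∈ X ∧ ∃ w ∈ X, w ∉ A' ∧ Adj v w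

omit [Fintype ι] [DecidableEq ι] in
theorem Cr_near {g : ℕ → (ι → ℤ) → ι → ℤ} {κ : ℤ} {σ : Finset (ι → ℤ)} {j : ℕ} {v₀ w : ι → ℤ}
    (h1 : ∀ v ∈ σ, Nk' κ (g j v₀) (g j v)) (h2 : ∀ v ∈ σ, Nk' κ (g j v) (g (j + 1) v))
    (hw : Cr g g j σ w) : Nk' (2 * κ) (g j v₀) w := by
  intro i
  obtain ⟨⟨v, hv, h3⟩, v', hv', h4⟩ := hw i
  have h5 := abs_le.1 (h1 v hv i)
  have h6 := abs_le.1 (h2 v hv i)
  have h7 := abs_le.1 (h1 v' hv' i)
  have h8 := abs_le.1 (h2 v' hv' i)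
  have h9 : 0 ≤ κ := (abs_nonneg _).trans (h1 v hv i)
  rw [abs_le]
  constructor
  · rcases h3 with h3 | h3 <;> omega
  · rcases h4 with h4 | h4 <;> omega

/-- **Transfer lemma.** -/
theorem slip_grid {L : AddSubgroup (ι → ℤ)} {X X₁ A A' : Set (ι → ℤ)} (hX : Inv L X)
    (hA' : Inv L A') (hAA : A' ⊆ A)
    (π : Equiv.Perm ι) (hπA : PInv π A')
    (g : ℕ → (ι → ℤ) → (ι → ℤ)) (r : ℕ) (κ : ℤ) (h0 : ∀ v, g 0 v = v)
    (hr : ∀ v, g r v = v ∘ π) (hL : ∀ i, ∀ l ∈ L, ∀ v, g i (v + l) = g i v + l)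
    (hadj : ∀ i ≤ r, ∀ v w, Live' X A' v → Live' X A' w → Adj v w → Nk' κ (g i v) (g i w))
    (hstep : ∀ i < r, ∀ v, Live' X A' v → Nk' κ (g i v) (g (i + 1) v))
    (hin : ∀ i ≤ r, ∀ v w, Live' X A' v → Nk' (2 * κ) (g i v) w → w ∈ X₁)
    (hlow : ∀ i ≤ r, ∀ v w, Live' X A' v → v ∈ A' → Nk' (2 * κ) (g i v) w → w ∈ A)
    (p : ℕ) {x : Co ι F} (hx : x ∈ co (F := F) L X₁ A (p + 1)) (hd : dX X₁ x = 0) :
    ∃ y ∈ co (F := F) L X A' p, cut (In X) (ta F π x) = dX X y := by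
  classical
  obtain ⟨H, hH⟩ := carrier_T (F := F) L r g g π (fun _ _ _ => le_rfl) h0 h0 hr hr hL hL
  obtain ⟨hxL, hxS⟩ := hx
  have hx0 : ∀ σ : Finset (ι → ℤ), (∀ v ∈ σ, v ∈ A) → x σ = 0 := by
    intro σ h
    by_contra h1
    exact (hxS σ h1).2.1 h
  have hxc : ∀ σ : Finset (ι → ℤ), σ.card ≠ p + 1 → x σ = 0 := by
    intro σ h
    by_contra h1
    exact h (hxS σ h1).2.2
  -- simplices of live vertices: the carriers are in `X₁`
  have key : ∀ σ : Finset (ι → ℤ), Simp σ → (∀ v ∈ σ, Live' X A' v) → ∀ j < r, ∀ v ∈ σ, ∀ w,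
      Cr g g j σ w → Nk' (2 * κ) (g j v) w := by
    intro σ hσ hlive j hj v hv w hw
    exact Cr_near (fun u hu => hadj j hj.le v u (hlive v hv) (hlive u hu) (hσ v hv u hu))
      (fun u hu => hstep j hj u (hlive u hu)) hw
  have hHd : ∀ σ : Finset (ι → ℤ), Simp σ → σ.Nonempty → (∀ v ∈ σ, Live' X A' v) →
      H (dd x) σ = 0 := by
    intro σ hσ hne hlive
    refine hH.supp _ σ hσ hne fun τ hτ hc ⟨j, hj, hI⟩ => ?_
    obtain ⟨v, hv⟩ := hne
    have h1 : In X₁ τ := ⟨hτ, fun w hw => hin j hj.le v w (hlive v hv)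
      (key σ hσ hlive j hj v hv w (hI w hw))⟩
    have h2 := congrFun hd τ
    change (if In X₁ τ then dd x τ else 0) = 0 at h2
    rwa [if_pos h1] at h2
  have hHl : ∀ σ : Finset (ι → ℤ), Simp σ → (∀ v ∈ σ, Live' X A' v) → (∀ v ∈ σ, v ∈ A') →
      H x σ = 0 := by
    intro σ hσ hlive hA
    rcases σ.eq_empty_or_nonempty with h1 | hne
    · rw [h1]
      exact hH.emp x
    · refine hH.supp _ σ hσ hne fun τ hτ hc ⟨j, hj, hI⟩ => ?_
      obtain ⟨v, hv⟩ := hne
      exact hx0 τ fun w hw => hlow j hj.le v w (hlive v hv) (hA v hv)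
        (key σ hσ hlive j hj v hv w (hI w hw))
  refine ⟨cut (fun σ => In X σ ∧ ¬ (∀ v ∈ σ, v ∈ A') ∧ σ.card = p) (H x), ⟨?_, ?_⟩, ?_⟩
  · intro l hl σ
    rw [H47.ST.cut_apply, H47.ST.cut_apply]
    have h1 : (In X (tr l σ) ∧ ¬ (∀ v ∈ tr l σ, v ∈ A') ∧ (tr l σ).card = p) ↔
        (In X σ ∧ ¬ (∀ v ∈ σ, v ∈ A') ∧ σ.card = p) := by
      rw [H47.ST.CellA_tr_In hX hl, Car_tr_card]
      have h2 : (∀ v ∈ tr l σ, v ∈ A') ↔ ∀ v ∈ σ, v ∈ A' := by
        constructor
        · intro h v hv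
          exact (hA' l hl v).2 (h _ (H47.ST.CellA_tr_mem.2 ⟨v, hv, rfl⟩))
        · intro h w hw
          obtain ⟨v, hv, rfl⟩ := H47.ST.CellA_tr_mem.1 hw
          exact (hA' l hl v).1 (h v hv)
      rw [h2]
    by_cases h2 : In X σ ∧ ¬ (∀ v ∈ σ, v ∈ A') ∧ σ.card = p
    · rw [if_pos h2, if_pos (h1.2 h2)]
      exact hH.eqv l hl x x (fun τ _ => hxL l hl τ) σ h2.1.1
    · rw [if_neg h2, if_neg fun h3 => h2 (h1.1 h3)]
  · intro σ h
    rw [H47.ST.cut_apply] at h
    by_contra h2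
    rw [if_neg h2] at h
    exact h rfl
  · ext σ
    rw [H47.ST.cut_apply]
    change _ = (if In X σ then dd _ σ else 0)
    by_cases hσX : In X σ
    · rw [if_pos hσX, if_pos hσX]
      have hta : ta F π x σ = x (σ.map (pe π).toEmbedding) - x σ := rfl
      by_cases hσA : ∀ v ∈ σ, v ∈ A'
      · have h1 : x σ = 0 := hx0 σ fun v hv => hAA (hσA v hv)
        have h2 : x (σ.map (pe π).toEmbedding) = 0 := by
          refine hx0 _ fun w hw => ?_
          obtain ⟨v, hv, rfl⟩ := Finset.mem_map.1 hw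
          exact hAA ((hπA v).1 (hσA v hv))
        rw [hta, h1, h2, sub_zero, H47.ST.dd_apply]
        symm
        refine Finset.sum_eq_zero fun v hv => ?_
        rw [H47.ST.cut_apply, if_neg, mul_zero]
        intro h3
        exact h3.2.1 fun w hw => hσA w (Finset.mem_of_mem_erase hw)
      · have hlive : ∀ v ∈ σ, Live' X A' v := by
          intro v hv
          push Not at hσA
          obtain ⟨w, hw, hw'⟩ := hσA
          exact ⟨hσX.2 v hv, w, hσX.2 w hw, hw', hσX.1 v hv w hw⟩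
        have hne : σ.Nonempty := by
          rw [Finset.nonempty_iff_ne_empty]
          rintro rfl
          exact hσA fun v hv => absurd hv (Finset.notMem_empty v)
        by_cases hc : σ.card = p + 1
        · have h1 := hH.hom x σ hσX.1
          rw [hHd σ hσX.1 hne hlive, add_zero] at h1
          have h2 : Tp π x σ - LinearMap.id (R := F) x σ = ta F π x σ := rfl
          rw [h2] at h1
          rw [← h1]
          refine Car_dd_congr fun v hv => ?_
          rw [H47.ST.cut_apply]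
          have h3 : (σ.erase v).card = p := by
            rw [Finset.card_erase_of_mem hv]; omega
          have h4 : In X (σ.erase v) := H47.ST.CellA_In_erase hσX v
          by_cases h5 : ∀ w ∈ σ.erase v, w ∈ A'
          · rw [if_neg fun h6 => h6.2.1 h5]
            exact hHl _ h4.1 (fun w hw => hlive w (Finset.mem_of_mem_erase hw)) h5
          · rw [if_pos ⟨h4, h5, h3⟩]
        · have h1 : x (σ.map (pe π).toEmbedding) = 0 := hxc _ (by rwa [Finset.card_map])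
          rw [hta, h1, hxc σ hc, sub_zero, H47.ST.dd_apply]
          symm
          refine Finset.sum_eq_zero fun v hv => ?_
          rw [H47.ST.cut_apply, if_neg, mul_zero]
          rintro ⟨-, -, h3⟩
          rw [Finset.card_erase_of_mem hv] at h3
          have := hne.card_pos
          omega
    · rw [if_neg hσX, if_neg hσX]

end Pool.Agent.H86.FU
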